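import Mathlib

namespace Pool.Agent.Results.MP_711a76_lc.Counter

/-- The alphabet `F_q^2`. -/
abbrev Al (q : ℕ) := ZMod q × ZMod q

/-- The symplectic form on `A_q^n`. -/
def form {q n : ℕ} (u v : Fin n → Al q) : ZMod q := ∑ i, ((u i).1 * (v i).2 - (v i).1 * (u i).2)

/-- The number of nonzero coordinates. -/
def wt {q n : ℕ} (u : Fin n → Al q) : ℕ := (Finset.univ.filter fun i => u i ≠ 0).card

/-- The symplectic dual. -/
def perp {q n : ℕ} (C : Set (Fin n → Al q)) : Set (Fin n → Al q) := {u | ∀ c ∈ C, form u c = 0}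

/-- `C` is an `F_q`-subspace. -/
def IsSub {q n : ℕ} (C : Set (Fin n → Al q)) : Prop :=
  0 ∈ C ∧ (∀ u ∈ C, ∀ v ∈ C, u + v ∈ C) ∧ ∀ (a : ZMod q), ∀ u ∈ C, a • u ∈ C

/-- `C` is a stabilizer code. -/
def IsStab {q n : ℕ} (C : Set (Fin n → Al q)) : Prop := IsSub C ∧ C ⊆ perp C

open Classical in
/-- The distance of a stabilizer code. -/
noncomputable def dist {q n : ℕ} (C : Set (Fin n → Al q)) : ℕ :=
  if C = perp C then sInf {m | ∃ u ∈ C, u ≠ 0 ∧ wt u = m}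
  else sInf {m | ∃ u ∈ perp C, u ∉ C ∧ wt u = m}

/-- `f` is linear on `C`. -/
def LinOn {q n : ℕ} (C : Set (Fin n → Al q)) (f : (Fin n → Al q) → (Fin n → Al q)) : Prop :=
  (∀ u ∈ C, ∀ v ∈ C, f (u + v) = f u + f v) ∧ ∀ (a : ZMod q), ∀ u ∈ C, f (a • u) = a • f u

/-- `f` restricts to a weight-preserving isometry from `C` onto `D`. -/
def IsIsom {q n : ℕ} (C D : Set (Fin n → Al q)) (f : (Fin n → Al q) → (Fin n → Al q)) : Prop :=
  LinOn C f ∧ Set.BijOn f C D ∧ ∀ c ∈ C, wt (f c) = wt c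

/-- `g` is an element of `GL(2,q)`. -/
def IsGL {q : ℕ} (g : Al q → Al q) : Prop :=
  (∀ u v, g (u + v) = g u + g v) ∧ (∀ (a : ZMod q) u, g (a • u) = a • g u) ∧ Function.Bijective g

/-- `f` agrees on `C` with a monomial transformation. -/
def Extends {q n : ℕ} (C : Set (Fin n → Al q)) (f : (Fin n → Al q) → (Fin n → Al q)) : Prop :=
  ∃ (π : Equiv.Perm (Fin n)) (g : Fin n → Al q → Al q), (∀ i, IsGL (g i)) ∧
    ∀ c ∈ C, f c = fun i => g i (c (π.symm i))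

def g1 : Fin 6 → Fin 7 → Al 2 :=
  ![![(0, 0), (1, 1), (1, 1), (1, 0), (0, 0), (0, 0), (1, 0)],
    ![(1, 1), (1, 1), (0, 0), (0, 1), (0, 0), (0, 0), (0, 1)],
    ![(1, 0), (1, 0), (0, 0), (0, 0), (1, 0), (0, 0), (0, 1)],
    ![(0, 1), (1, 1), (1, 0), (0, 0), (0, 1), (0, 0), (1, 1)],
    ![(0, 1), (0, 1), (0, 0), (0, 0), (0, 0), (1, 0), (0, 1)],
    ![(1, 0), (1, 1), (0, 1), (0, 0), (0, 0), (0, 1), (1, 1)]]

def g2 : Fin 6 → Fin 7 → Al 2 :=
  ![![(0, 1), (0, 1), (0, 0), (1, 0), (0, 0), (0, 0), (1, 0)],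
    ![(1, 1), (1, 1), (0, 0), (0, 1), (0, 0), (0, 0), (0, 1)],
    ![(1, 1), (0, 0), (1, 1), (0, 0), (1, 0), (0, 0), (0, 1)],
    ![(0, 1), (1, 1), (1, 0), (0, 0), (0, 1), (0, 0), (1, 1)],
    ![(0, 0), (1, 1), (1, 1), (0, 0), (0, 0), (1, 0), (0, 1)],
    ![(1, 1), (0, 1), (1, 0), (0, 0), (0, 0), (0, 1), (1, 1)]]

def L (g : Fin 6 → Fin 7 → Al 2) : (Fin 6 → ZMod 2) →ₗ[ZMod 2] (Fin 7 → Al 2) :=
  Fintype.linearCombination (ZMod 2) g

def cb (g : Fin 6 → Fin 7 → Al 2) (x : Fin 6 → ZMod 2) : Fin 7 → Al 2 :=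
  fun j => (∑ k, x k * (g k j).1, ∑ k, x k * (g k j).2)

lemma L_eq (g : Fin 6 → Fin 7 → Al 2) (x : Fin 6 → ZMod 2) : L g x = cb g x := by
  ext j <;> simp [L, cb, Fintype.linearCombination_apply, Prod.fst_sum, Prod.snd_sum]

lemma all6 {P : (Fin 6 → ZMod 2) → Prop} (h : ∀ a b c d e f, P ![a, b, c, d, e, f]) (x) : P x := by
  have := h (x 0) (x 1) (x 2) (x 3) (x 4) (x 5)
  convert this
  ext i; fin_cases i <;> rfl

def sp (i j : Fin 7) (a b : Al 2) : Fin 7 → Al 2 :=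
  fun t => if t = i then a else if t = j then b else 0

lemma exists_sp (u : Fin 7 → Al 2) (h : wt u ≤ 2) : ∃ i j a b, u = sp i j a b := by
  obtain ⟨t, ht1, ht2⟩ := Finset.exists_superset_card_eq (n := 2) h (by simp)
  obtain ⟨i, j, -, rfl⟩ := Finset.card_eq_two.1 ht2
  refine ⟨i, j, u i, u j, funext fun t => ?_⟩
  simp only [sp]
  split_ifs with h1 h2
  · rw [h1]
  · rw [h2]
  · by_contra hc
    have := ht1 (Finset.mem_filter.2 ⟨Finset.mem_univ t, hc⟩)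
    simp [h1, h2] at this

lemma form_L (g : Fin 6 → Fin 7 → Al 2) (u : Fin 7 → Al 2) (x : Fin 6 → ZMod 2) :
    form u (L g x) = ∑ k, x k * form u (g k) := by
  rw [L_eq]
  simp only [form, cb, Finset.mul_sum, Finset.sum_mul, ← Finset.sum_sub_distrib]
  rw [Finset.sum_comm]
  refine Finset.sum_congr rfl fun k _ => Finset.sum_congr rfl fun i _ => by ring

lemma mem_perp (g : Fin 6 → Fin 7 → Al 2) (u : Fin 7 → Al 2) :
    u ∈ perp (Set.range (L g)) ↔ ∀ k, form u (g k) = 0 := by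
  constructor
  · intro h k
    refine h _ ⟨Pi.single k 1, ?_⟩
    simp [L, Fintype.linearCombination_apply, Pi.single_apply]
  · rintro h _ ⟨x, rfl⟩
    simp [form_L, h]

def v0 : Fin 7 → Al 2 := ![(1, 0), (1, 0), (1, 0), 0, 0, 0, 0]

lemma good (g : Fin 6 → Fin 7 → Al 2) (h1 : ∀ x k, form (cb g x) (g k) = 0)
    (h2 : ∀ i j a b, (∀ k, form (sp i j a b) (g k) = 0) → sp i j a b = 0) (h3 : ∀ k, form v0 (g k) = 0)
    (h4 : ∀ x, cb g x ≠ v0) :
    IsStab (Set.range (L g)) ∧ 2 < dist (Set.range (L g)) := by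
  have hv : v0 ∉ Set.range (L g) := by
    rintro ⟨x, hx⟩
    exact h4 x (by rwa [← L_eq])
  refine ⟨⟨⟨⟨0, map_zero _⟩, ?_, ?_⟩, ?_⟩, ?_⟩
  · rintro _ ⟨x, rfl⟩ _ ⟨y, rfl⟩
    exact ⟨x + y, map_add _ _ _⟩
  · rintro a _ ⟨x, rfl⟩
    exact ⟨a • x, map_smul _ _ _⟩
  · rintro _ ⟨x, rfl⟩
    rw [mem_perp, L_eq]
    exact h1 x
  · rw [dist, if_neg]
    · obtain ⟨u, hu1, hu2, hu3⟩ := Nat.sInf_mem (s := {m | ∃ u ∈ perp (Set.range (L g)),
        u ∉ Set.range (L g) ∧ wt u = m}) ⟨_, v0, (mem_perp g _).2 h3, hv, rfl⟩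
      rw [← hu3]
      by_contra hc
      obtain ⟨i, j, a, b, rfl⟩ := exists_sp u (by omega)
      rw [h2 i j a b ((mem_perp g _).1 hu1)] at hu2
      exact hu2 ⟨0, map_zero _⟩
    · intro h
      have := (mem_perp g _).2 h3
      rw [← h] at this
      exact hv this

lemma inj (g : Fin 6 → Fin 7 → Al 2) (h : ∀ x, cb g x = 0 → x = 0) : Function.Injective (L g) := by
  rw [injective_iff_map_eq_zero]
  intro x hx
  exact h x (by rwa [← L_eq])

lemma inj1 : Function.Injective (L g1) := inj g1 (all6 (by decide +kernel))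
lemma inj2 : Function.Injective (L g2) := inj g2 (all6 (by decide +kernel))

lemma good1 : IsStab (Set.range (L g1)) ∧ 2 < dist (Set.range (L g1)) :=
  good g1 (all6 (by decide +kernel)) (by decide +kernel) (by decide +kernel)
    (all6 (by decide +kernel))

lemma good2 : IsStab (Set.range (L g2)) ∧ 2 < dist (Set.range (L g2)) :=
  good g2 (all6 (by decide +kernel)) (by decide +kernel) (by decide +kernel)
    (all6 (by decide +kernel))

lemma wt_eq : ∀ x, wt (cb g2 x) = wt (cb g1 x) := all6 (by decide +kernel)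

lemma sep : ∀ i : Fin 7, ∃ a b c d e f : ZMod 2,
    ¬ (cb g2 ![a, b, c, d, e, f] 0 = 0 ↔ cb g1 ![a, b, c, d, e, f] i = 0) := by decide +kernel

theorem result : ∃ (C D : Set (Fin 7 → Al 2)) (f : (Fin 7 → Al 2) → (Fin 7 → Al 2)),
    IsStab C ∧ IsStab D ∧ 2 < dist C ∧ 2 < dist D ∧ IsIsom C D f ∧ ¬ Extends C f := by
  have key : ∀ x, L g2 (Function.invFun (L g1) (L g1 x)) = L g2 x := fun x => by
    rw [Function.leftInverse_invFun inj1 x]
  refine ⟨Set.range (L g1), Set.range (L g2), fun u => L g2 (Function.invFun (L g1) u),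
    good1.1, good2.1, good1.2, good2.2, ⟨⟨?_, ?_⟩, ⟨?_, ?_, ?_⟩, ?_⟩, ?_⟩
  · rintro _ ⟨x, rfl⟩ _ ⟨y, rfl⟩
    simp only
    rw [← map_add, key, key, key, map_add]
  · rintro a _ ⟨x, rfl⟩
    simp only
    rw [← map_smul, key, key, map_smul]
  · exact fun u _ => ⟨_, rfl⟩
  · rintro _ ⟨x, rfl⟩ _ ⟨y, rfl⟩ h
    simp only [key] at h
    rw [inj2 h]
  · rintro _ ⟨x, rfl⟩
    exact ⟨_, ⟨x, rfl⟩, key x⟩
  · rintro _ ⟨x, rfl⟩
    simp only
    rw [key, L_eq, L_eq]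
    exact wt_eq x
  · rintro ⟨π, g, hg, h⟩
    obtain ⟨a, b, c, d, e, f, hs⟩ := sep (π.symm 0)
    have := congrFun (h _ ⟨![a, b, c, d, e, f], rfl⟩) 0
    simp only at this
    rw [key, L_eq, L_eq] at this
    apply hs
    have h0 : g 0 0 = 0 := by simpa using (hg 0).2.1 0 0
    rw [this]
    exact ⟨fun h1 => (hg 0).2.2.1 (h1.trans h0.symm), fun h1 => by rw [h1, h0]⟩

end Pool.Agent.Results.MP_711a76_lc.Counter
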